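import Mathlib
import Pool.Agent.Y546.WQ.Stm6

/-!
# RT-KC: the primes not above `p` are unramified in `K(z)`, `z` a primitive `p`-th root of unity
-/

set_option autoImplicit false

namespace Pool.Agent.Y363.WQ

open NumberField IsDedekindDomain Polynomial

section core

variable {K M : Type} [Field K] [NumberField K] [Field M] [NumberField M] [Algebra K M]

/-- `p` times a unit lies in the different of `K(z) / K` -/
theorem p_mem_diff {p : ℕ} (hp : p ≠ 0) (z : M) (hz : z ^ p = 1)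
    (hgen : Algebra.adjoin K {z} = ⊤) :
    ∃ w : 𝓞 M, IsUnit w ∧ (p : 𝓞 M) * w ∈ differentIdeal (𝓞 K) (𝓞 M) := by
  have hint : IsIntegral ℤ z := by
    refine ⟨X ^ p - 1, monic_X_pow_sub_C 1 hp, ?_⟩
    simp [hz]
  set u : 𝓞 M := ⟨z, hint⟩ with hu
  have hup : u ^ p = 1 := by
    apply RingOfIntegers.coe_injective
    rw [map_pow, map_one]
    exact hz
  have huu : IsUnit u := IsUnit.of_pow_eq_one hup hp
  have hmem : aeval u (derivative (minpoly (𝓞 K) u)) ∈ differentIdeal (𝓞 K) (𝓞 M) := by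
    apply aeval_derivative_mem_differentIdeal (𝓞 K) K M u
    exact hgen
  have hdvd : minpoly (𝓞 K) u ∣ X ^ p - 1 := by
    apply minpoly.isIntegrallyClosed_dvd
    · exact Algebra.IsIntegral.isIntegral u
    · simp [hup]
  obtain ⟨g, hg⟩ := hdvd
  have h1 := congrArg (fun f => aeval u (derivative f)) hg
  simp only [derivative_X_pow, derivative_one, derivative_mul, map_sub, map_mul,
    map_add, minpoly.aeval, zero_mul, add_zero, sub_zero, map_pow, aeval_X, map_natCast]
    at h1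
  refine ⟨u ^ (p - 1), huu.pow _, ?_⟩
  rw [h1]
  exact Ideal.mul_mem_right _ _ hmem

/-- primes not above `p` are unramified in `K(z)` -/
theorem core {p : ℕ} (hp : p ≠ 0) (z : M) (hz : z ^ p = 1)
    (hgen : Algebra.adjoin K {z} = ⊤) (v : HeightOneSpectrum (𝓞 K)) (hv : (p : 𝓞 K) ∉ v.asIdeal) :
    ∃ P : HeightOneSpectrum (𝓞 M), (p : 𝓞 M) ∉ P.asIdeal ∧
      ∀ a : K, P.valuation M (algebraMap K M a) = v.valuation K a := by
  obtain ⟨Q, -, hQ, hQP⟩ := Ideal.exists_ideal_over_prime_of_isIntegral (S := 𝓞 M) v.asIdeal ⊥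
    (by
      rw [← RingHom.ker_eq_comap_bot,
        (RingHom.injective_iff_ker_eq_bot _).1 (FaithfulSMul.algebraMap_injective (𝓞 K) (𝓞 M))]
      exact bot_le)
  have hQ0 : Q ≠ ⊥ := by
    intro h
    apply v.ne_bot
    rw [← hQP, h]
    exact Ideal.comap_bot_of_injective _ (FaithfulSMul.algebraMap_injective (𝓞 K) (𝓞 M))
  let w : HeightOneSpectrum (𝓞 M) := ⟨Q, hQ, hQ0⟩
  have hover : w.asIdeal.LiesOver v.asIdeal := ⟨hQP.symm⟩
  have hmax : v.asIdeal.IsMaximal := v.isMaximal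
  have hval := fun x : K => HeightOneSpectrum.valuation_liesOver (K := K) M v w x
  have hpQ : (p : 𝓞 M) ∉ w.asIdeal := by
    intro h
    apply hv
    rw [← hQP, Ideal.mem_comap, map_natCast]
    exact h
  have hmapQ : Ideal.map (algebraMap (𝓞 K) (𝓞 M)) v.asIdeal ≤ w.asIdeal := by
    rw [Ideal.map_le_iff_le_comap]
    exact le_of_eq hQP.symm
  have he : v.asIdeal.ramificationIdx' w.asIdeal = 1 := by
    by_contra hne
    rw [← Ne, Ideal.ramificationIdx'_ne_one_iff hmapQ] at hne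
    have h2 := pow_sub_one_dvd_differentIdeal (𝓞 K) (p := v.asIdeal) w.asIdeal 2 v.ne_bot
      (Ideal.dvd_iff_le.2 hne)
    rw [show 2 - 1 = 1 from rfl, pow_one, Ideal.dvd_iff_le] at h2
    obtain ⟨y, hy, hy'⟩ := p_mem_diff hp z hz hgen
    rcases hQ.mem_or_mem (h2 hy') with h | h
    · exact hpQ h
    · exact hQ.ne_top (Ideal.eq_top_of_isUnit_mem _ h hy)
  refine ⟨w, hpQ, fun a => ?_⟩
  rw [← hval, he, pow_one]

end core

/-- RT-KC -/
theorem mainKC : Pool.Agent.Y546.WQ.S_KC := by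
  intro p hp K M _ _ _ _ _ z hz hgen v hv
  refine core (Nat.Prime.ne_zero hp.out) z hz.pow_eq_one ?_ v hv
  rw [eq_top_iff]
  intro x _
  obtain ⟨f, rfl⟩ := hgen x
  exact aeval_mem_adjoin_singleton K z

end Pool.Agent.Y363.WQ
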